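import Pool.Agent.TH349.HI.Fixn
set_option autoImplicit false
open Finset Equiv
namespace Pool.Agent.TH365.HI
open Pool.Agent.TH349.HI

theorem tri_sq (a : ℕ → ℕ) (K : ℕ) :
    (∑ k ∈ Icc 1 K, a k) ^ 2 =
      ∑ k ∈ Icc 1 K, a k ^ 2 + 2 * ∑ k ∈ Icc 1 K, ∑ l ∈ Icc (k + 1) K, a k * a l := by
  induction K with
  | zero => simp
  | succ K ih =>
    have h1 : ∀ f : ℕ → ℕ, ∑ k ∈ Icc 1 (K + 1), f k = ∑ k ∈ Icc 1 K, f k + f (K + 1) := by
      intro f
      rw [Finset.sum_Icc_succ_top (by omega)]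
    rw [h1, h1, h1]
    have h2 : ∀ k ∈ Icc 1 K, ∑ l ∈ Icc (k + 1) (K + 1), a k * a l =
        ∑ l ∈ Icc (k + 1) K, a k * a l + a k * a (K + 1) := by
      intro k hk
      rw [mem_Icc] at hk
      rw [Finset.sum_Icc_succ_top (by omega)]
    rw [Finset.sum_congr rfl h2, Finset.sum_add_distrib, ← Finset.sum_mul]
    have h3 : ∑ l ∈ Icc (K + 1 + 1) (K + 1), a (K + 1) * a l = 0 := by
      rw [Finset.Icc_eq_empty (by omega)]; simp
    rw [h3]
    linear_combination ih

theorem diag_id (k j : ℕ) (hk : 1 ≤ k) :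
    2 * (((k - 1) / 2 * j + k * j.choose 2) * k) + (if Even k then k * j else 0) + k * j =
      (k * j) ^ 2 := by
  have h2 : 2 * j.choose 2 = j * (j - 1) := by
    rw [Nat.choose_two_right]
    exact Nat.mul_div_cancel' (Nat.even_mul_pred_self j).two_dvd
  have h3 : 2 * ((k - 1) / 2) + 1 + (if Even k then 1 else 0) = k := by
    split_ifs with h
    · rw [Nat.even_iff] at h; omega
    · rw [Nat.even_iff] at h; omega
  have h4 : j * (j - 1) + j = j * j := by
    rcases j with _ | j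
    · rfl
    · simp only [Nat.add_sub_cancel]; ring
  have h5 : (if Even k then k * j else 0) = (if Even k then 1 else 0) * (k * j) := by
    split_ifs <;> simp
  rw [h5]
  calc 2 * (((k - 1) / 2 * j + k * j.choose 2) * k) + (if Even k then 1 else 0) * (k * j) + k * j
      = (2 * ((k - 1) / 2) + 1 + (if Even k then 1 else 0)) * (k * j) + k * k * (2 * j.choose 2) := by ring
    _ = k * k * (j * (j - 1) + j) := by rw [h3, h2]; ring
    _ = (k * j) ^ 2 := by rw [h4]; ring

/-- the orbits of the pairs: square identity -/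
theorem S_a (K : ℕ) (j : ℕ → ℕ) (r : ℕ) :
    2 * (∑ k ∈ Icc 1 K, ((k - 1) / 2 * j k + k * (j k).choose 2) * (if k ∣ r then k else 0) +
      ∑ k ∈ Icc 1 K, ∑ l ∈ Icc (k + 1) K,
        (k.gcd l * j k * j l) * (if k.lcm l ∣ r then k.lcm l else 0)) +
    (∑ k ∈ Icc 1 K, if Even k ∧ k ∣ r then k * j k else 0) + fixn K j r = fixn K j r ^ 2 := by
  have h1 := tri_sq (fun k => if k ∣ r then k * j k else 0) K
  have h2 : (∑ k ∈ Icc 1 K, (if k ∣ r then k * j k else 0) ^ 2) =
      2 * (∑ k ∈ Icc 1 K, ((k - 1) / 2 * j k + k * (j k).choose 2) * (if k ∣ r then k else 0)) +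
      (∑ k ∈ Icc 1 K, if Even k ∧ k ∣ r then k * j k else 0) + fixn K j r := by
    unfold fixn
    rw [Finset.mul_sum, ← Finset.sum_add_distrib, ← Finset.sum_add_distrib]
    refine Finset.sum_congr rfl fun k hk => ?_
    rw [mem_Icc] at hk
    by_cases hr : k ∣ r
    · simp only [hr, if_true, and_true]
      rw [← diag_id k (j k) hk.1]
    · simp [hr]
  have h3 : ∀ k ∈ Icc 1 K, ∀ l ∈ Icc (k + 1) K,
      (if k ∣ r then k * j k else 0) * (if l ∣ r then l * j l else 0) =
      (k.gcd l * j k * j l) * (if k.lcm l ∣ r then k.lcm l else 0) := by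
    intro k _ l _
    by_cases hk : k ∣ r
    · by_cases hl : l ∣ r
      · rw [if_pos hk, if_pos hl, if_pos (Nat.lcm_dvd hk hl)]
        calc k * j k * (l * j l) = (k * l) * (j k * j l) := by ring
          _ = (k.gcd l * k.lcm l) * (j k * j l) := by rw [Nat.gcd_mul_lcm]
          _ = _ := by ring
      · rw [if_pos hk, if_neg hl, if_neg (fun h => hl ((Nat.dvd_lcm_right k l).trans h))]; simp
    · rw [if_neg hk, if_neg (fun h => hk ((Nat.dvd_lcm_left k l).trans h))]; simp
  have h4 := Finset.sum_congr rfl (fun k hk => Finset.sum_congr rfl (h3 k hk))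
  have h5 : fixn K j r ^ 2 = (∑ k ∈ Icc 1 K, if k ∣ r then k * j k else 0) ^ 2 := rfl
  rw [h5, h1, h2, h4]
  ring

theorem rev (K : ℕ) (j : ℕ → ℕ) (r : ℕ) :
    fixn K j (2 * r) = fixn K j r +
      ∑ k ∈ Icc 1 K, (if Even k ∧ k / 2 ∣ r ∧ ¬ k ∣ r then k * j k else 0) := by
  unfold fixn
  rw [← Finset.sum_add_distrib]
  refine Finset.sum_congr rfl fun k hk => ?_
  rw [mem_Icc] at hk
  by_cases h1 : k ∣ r
  · rw [if_pos (Dvd.dvd.mul_left h1 2), if_pos h1, if_neg (fun h => h.2.2 h1)]; simp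
  · rw [if_neg h1]
    by_cases h2 : Even k ∧ k / 2 ∣ r
    · rw [if_pos (show Even k ∧ k / 2 ∣ r ∧ ¬ k ∣ r from ⟨h2.1, h2.2, h1⟩)]
      have : k ∣ 2 * r := by
        obtain ⟨⟨m, hm⟩, c, hc⟩ := h2
        have : k / 2 = m := by omega
        rw [this] at hc
        exact ⟨c, by rw [hc, hm]; ring⟩
      rw [if_pos this]; simp
    · rw [if_neg (show ¬ (Even k ∧ k / 2 ∣ r ∧ ¬ k ∣ r) from fun h => h2 ⟨h.1, h.2.1⟩)]
      have : ¬ k ∣ 2 * r := by
        intro h
        apply h2
        rcases Nat.even_or_odd k with he | ho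
        · refine ⟨he, ?_⟩
          obtain ⟨m, hm⟩ := he
          have : k / 2 = m := by omega
          rw [this]
          have h3 : 2 * m ∣ 2 * r := by rwa [show k = 2 * m by omega] at h
          exact (mul_dvd_mul_iff_left (by norm_num)).1 h3
        · exfalso
          apply h1
          exact (Nat.Coprime.dvd_mul_left (Nat.Coprime.symm ((Nat.coprime_two_left).2 ho))).1 h
      rw [if_neg this]

end Pool.Agent.TH365.HI
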