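import Mathlib
set_option autoImplicit false
open Finset Equiv
namespace Pool.Agent.TH365.HI

set_option linter.unusedSectionVars false

section
variable {E : Type} [Fintype E] [DecidableEq E] (g : Perm E)

/-- the orbits of a permutation -/
abbrev QQ (g : Perm E) := Quotient (Perm.SameCycle.setoid g)

/-- the orbit of a point -/
abbrev cl (g : Perm E) (e : E) : QQ g := Quotient.mk (Perm.SameCycle.setoid g) e

theorem cl_eq {a b : E} : cl g a = cl g b ↔ g.SameCycle a b := Quotient.eq (r := Perm.SameCycle.setoid g)

theorem cl_g (e : E) : cl g (g e) = cl g e := by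
  rw [cl_eq]
  exact ⟨-1, by simp⟩

open Classical

/-- size of an orbit -/
noncomputable def sz (g : Perm E) (q : QQ g) : ℕ := #{e : E | cl g e = q}

theorem pow_fix_iff (e : E) (r : ℕ) : (g ^ r) e = e ↔ sz g (cl g e) ∣ r := by
  have h : g.IsCycleOn (({e' : E | cl g e' = cl g e} : Finset E) : Set E) := by
    refine ⟨⟨?_, g.injective.injOn, ?_⟩, ?_⟩
    · intro a ha
      rw [Finset.mem_coe, Finset.mem_filter] at ha ⊢
      exact ⟨Finset.mem_univ _, by rw [cl_g]; exact ha.2⟩
    · intro a ha
      rw [Finset.mem_coe, Finset.mem_filter] at ha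
      refine ⟨g⁻¹ a, ?_, by simp⟩
      rw [Finset.mem_coe, Finset.mem_filter]
      refine ⟨Finset.mem_univ _, ?_⟩
      rw [← cl_g]
      simpa using ha.2
    · intro a ha b hb
      rw [Finset.mem_coe, Finset.mem_filter] at ha hb
      rw [← cl_eq, ha.2, hb.2]
  exact h.pow_apply_eq (by simp)

/-- the multiset of the sizes of the orbits -/
noncomputable def parts (g : Perm E) : Multiset ℕ := (univ : Finset (QQ g)).val.map (sz g)

theorem parts_pos : ∀ L ∈ parts g, L ≠ 0 := by
  intro L hL
  rw [parts, Multiset.mem_map] at hL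
  obtain ⟨q, _, rfl⟩ := hL
  induction q using Quotient.inductionOn with
  | h e =>
    unfold sz
    rw [Finset.card_ne_zero]
    exact ⟨e, by simp⟩

theorem card_fix (r : ℕ) : #{e : E | (g ^ r) e = e} =
    ((parts g).map (fun L => if L ∣ r then L else 0)).sum := by
  rw [parts, Multiset.map_map]
  change _ = ∑ q : QQ g, (if sz g q ∣ r then sz g q else 0)
  rw [Finset.card_eq_sum_card_fiberwise (f := cl g) (t := (univ : Finset (QQ g)))
    (fun _ _ => Finset.mem_coe.2 (Finset.mem_univ _))]
  refine Finset.sum_congr rfl fun q _ => ?_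
  by_cases h : sz g q ∣ r
  · rw [if_pos h, sz]
    congr 1
    ext e
    simp only [Finset.mem_filter, Finset.mem_univ, true_and]
    constructor
    · exact fun h => h.2
    · intro h1
      refine ⟨?_, h1⟩
      rw [pow_fix_iff, h1]
      exact h
  · rw [if_neg h, Finset.card_eq_zero, Finset.filter_eq_empty_iff]
    intro e he h1
    simp only [Finset.mem_filter, Finset.mem_univ, true_and] at he
    rw [pow_fix_iff, h1] at he
    exact h he

/-- the union of a set of orbits -/
noncomputable def un (g : Perm E) (T : Finset (QQ g)) : Finset E := {e : E | cl g e ∈ T}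

theorem mem_un (T : Finset (QQ g)) (e : E) : e ∈ un g T ↔ cl g e ∈ T := by simp [un]

theorem card_un (T : Finset (QQ g)) : #(un g T) = ∑ q ∈ T, sz g q := by
  rw [Finset.card_eq_sum_card_fiberwise (f := cl g) (t := T)
    (fun e he => by simpa [un] using he)]
  refine Finset.sum_congr rfl fun q hq => ?_
  unfold sz
  congr 1
  ext e
  simp only [Finset.mem_filter, Finset.mem_univ, true_and, mem_un]
  constructor
  · exact fun h => h.2
  · intro h; exact ⟨by rw [h]; exact hq, h⟩

theorem un_inj : Function.Injective (un g) := by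
  intro T T' h
  ext q
  induction q using Quotient.inductionOn with
  | h e =>
    have := mem_un g T e
    rw [h, mem_un] at this
    exact this.symm

theorem inv_iff (S : Finset E) : (∀ e, g e ∈ S ↔ e ∈ S) ↔ ∃ T, un g T = S := by
  constructor
  · intro h
    have hz : ∀ (n : ℤ) (e : E), (g ^ n) e ∈ S ↔ e ∈ S := by
      have hn : ∀ (n : ℕ) (e : E), (g ^ n) e ∈ S ↔ e ∈ S := by
        intro n
        induction n with
        | zero => intro e; simp
        | succ n ih =>
          intro e
          rw [pow_succ', Perm.mul_apply, h, ih]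
      intro n e
      obtain ⟨m, rfl | rfl⟩ := n.eq_nat_or_neg
      · exact_mod_cast hn m e
      · have := hn m ((g ^ (-(m : ℤ))) e)
        rw [← this]
        simp
    refine ⟨S.image (cl g), ?_⟩
    ext e
    rw [mem_un, Finset.mem_image]
    constructor
    · rintro ⟨a, ha, hae⟩
      rw [cl_eq] at hae
      obtain ⟨n, hn⟩ := hae
      rw [← hn, hz]
      exact ha
    · intro he
      exact ⟨e, he, rfl⟩
  · rintro ⟨T, rfl⟩ e
    rw [mem_un, mem_un, cl_g]

theorem sum_inv {F : Type} [Field F] (x : F) :
    ∑ S : Finset E, (if ∀ e, g e ∈ S ↔ e ∈ S then x ^ #S else 0) =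
      ((parts g).map (fun L => 1 + x ^ L)).prod := by
  rw [parts, Multiset.map_map]
  change _ = ∏ q : QQ g, (1 + x ^ (sz g q))
  rw [Finset.prod_one_add]
  rw [← Finset.sum_filter]
  have h1 : (Finset.univ.filter (fun S : Finset E => ∀ e, g e ∈ S ↔ e ∈ S)) =
      (univ : Finset (Finset (QQ g))).image (un g) := by
    ext S
    rw [Finset.mem_filter, inv_iff, Finset.mem_image]
    simp
  rw [h1, Finset.sum_image (fun a _ b _ h => un_inj g h), Finset.powerset_univ]
  refine Finset.sum_congr rfl fun T _ => ?_
  rw [card_un, Finset.prod_pow_eq_pow_sum]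

end

/-- the divisor sums determine a multiset of positive numbers -/
theorem multiset_eq (M1 M2 : Multiset ℕ) (h1 : ∀ L ∈ M1, L ≠ 0) (h2 : ∀ L ∈ M2, L ≠ 0)
    (h : ∀ r, 1 ≤ r → (M1.map (fun L => if L ∣ r then L else 0)).sum =
      (M2.map (fun L => if L ∣ r then L else 0)).sum) : M1 = M2 := by
  have key : ∀ (M : Multiset ℕ) (r : ℕ), 1 ≤ r →
      (M.map (fun L => if L ∣ r then L else 0)).sum = ∑ d ∈ r.divisors, M.count d * d := by
    intro M r hr
    induction M using Multiset.induction_on with
    | empty => simp
    | cons a M ih =>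
      rw [Multiset.map_cons, Multiset.sum_cons, ih]
      have : ∀ d ∈ r.divisors, (a ::ₘ M).count d * d = M.count d * d + (if a = d then d else 0) := by
        intro d _
        rw [Multiset.count_cons, add_mul]
        by_cases h : d = a
        · simp [h]
        · rw [if_neg h, if_neg (fun h' => h h'.symm)]; simp
      rw [Finset.sum_congr rfl this, Finset.sum_add_distrib, Finset.sum_ite_eq]
      by_cases h : a ∣ r
      · rw [if_pos h, if_pos (Nat.mem_divisors.2 ⟨h, by omega⟩)]; ring
      · rw [if_neg h, if_neg (fun h' => h (Nat.mem_divisors.1 h').1)]; ring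
  have h3 : ∀ L, M1.count L = M2.count L := by
    intro L
    induction L using Nat.strong_induction_on with
    | _ L ih =>
      rcases Nat.eq_zero_or_pos L with rfl | hL
      · rw [Multiset.count_eq_zero_of_notMem (fun h' => h1 0 h' rfl),
          Multiset.count_eq_zero_of_notMem (fun h' => h2 0 h' rfl)]
      · have h4 := h L hL
        rw [key M1 L hL, key M2 L hL, ← Nat.cons_self_properDivisors (by omega),
          Finset.sum_cons, Finset.sum_cons] at h4
        have h5 : ∑ d ∈ L.properDivisors, M1.count d * d = ∑ d ∈ L.properDivisors, M2.count d * d := by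
          refine Finset.sum_congr rfl fun d hd => ?_
          rw [ih d (Nat.mem_properDivisors.1 hd).2]
        rw [h5] at h4
        have h6 : M1.count L * L = M2.count L * L := by omega
        exact Nat.eq_of_mul_eq_mul_right hL h6
  exact Multiset.ext.2 h3

end Pool.Agent.TH365.HI
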